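import Pool.Agent.V1187.CompleteNumbers

/-!
# A singular spectral pair with exactly two complete numbers

The measure is the Cantor measure of scale four (equal weights, maps `x ↦ x / 4` and
`x ↦ (x + 2) / 4`). The spectrum is the set of all natural numbers whose residues modulo powers of four
follow a binary tree which contains, for every odd `t ≥ 3`, the path of the 2-adic number
`-4 ^ (t !) / t`; for this reason no odd multiple with `|t| ≥ 3` is a spectrum.
-/

set_option autoImplicit false

open MeasureTheory Set

namespace Pool.Agent.Results.MP_90e10c_an.TwoCompleteNumbers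

open Pool.Agent.V1187.SP

/-- There is a spectral pair `(μ, L)` on the line such that `μ` is singular with respect to Lebesgue
measure and has no point masses, whose only complete numbers are `1` and `-1`. -/
theorem result : ∃ (μ : Measure ℝ) (L : Set ℝ), IsSpectralPair μ L ∧ μ ⟂ₘ volume ∧
    (∀ x : ℝ, μ {x} = 0) ∧
    {t : ℝ | IsSpectralPair μ ((fun l => t * l) '' L)} = {1, -1} := by
  refine ⟨Pool.Agent.V1187.CN.mu4, Pool.Agent.V1187.CN.LamR, ?_,
    Pool.Agent.V1187.CN.mu4_singular, Pool.Agent.V1187.CN.mu4_noAtoms,
    Pool.Agent.V1187.CN.complete_numbers⟩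
  have := Pool.Agent.V1187.CN.isSpectralPair_sign 1 (Or.inl rfl)
  simpa using this

end Pool.Agent.Results.MP_90e10c_an.TwoCompleteNumbers
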